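import Pool.Agent.Q82.QC.Fin
import Pool.Agent.Q82.QC.Main
import Pool.Agent.Q82.QC.CONV
import Pool.Agent.Q82.QC.CTL
import Pool.Agent.Q82.QC.VOL
import Pool.Agent.Q82.QC.VCONV
import Pool.Agent.Q16.QC_SM
import Pool.Agent.Q16.QC_LAP
import Pool.Agent.Q16.QC_PHI
import Pool.Agent.Q16.QC_CD
import Pool.Agent.Q16.QC_POTL
import Pool.Agent.Q16.QC_WL
import Pool.Agent.Q16.QC_KH
import Pool.Agent.Q16.QC_POTB
import Pool.Agent.Q16.QC_WP
import Pool.Agent.Q16.QC_GRO
import Pool.Agent.Q16.QC_WB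
import Pool.Agent.Q217.QC.KD
import Pool.Agent.Q62.QC_RIESZ
import Pool.Agent.Q62.QC_MASS
import Pool.Agent.Q62.QC_TAIL
import Pool.Agent.Q62.QC_MOL
import Pool.Agent.Q62.QC_TH
import Pool.Agent.Q184.QC_DEC
import Pool.Agent.Q230.QC_RAT
import Pool.Agent.Q198.QC_APP
import Pool.Agent.Q198.QC_EPS
import Pool.Agent.Q71.QC_CONC

/-!
Concentration at finitely many points of the hyperplane `x₀ = -1` together with polyharmonic blow-up
on the hyperplane `x₀ = 1`, with the profile `x₀ - x₀³/3 - 2/3`, in dimension four.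
-/

set_option autoImplicit false

open MeasureTheory Filter Topology Real InnerProductSpace Laplacian

namespace Pool.Agent.Results.MP_e2b804_an.MixedBlowUp

/-- The space `ℝ⁴`; the coordinates are numbered from `0` to `3`. -/
abbrev R4 : Type := EuclideanSpace ℝ (Fin 4)

/-- The domain `(-2, 2) × ℝ³`. -/
def Omega : Set R4 := {x | -2 < x 0 ∧ x 0 < 2}

/-- The profile. -/
noncomputable def profile (x : R4) : ℝ := x 0 - x 0 ^ 3 / 3 - 2 / 3

/-- The last three coordinates of a point. -/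
noncomputable def lastThree (x : R4) : EuclideanSpace ℝ (Fin 3) :=
  WithLp.toLp 2 (fun i => x (Fin.succ i))

/-- The concentration blow-up set: the points `x` of the domain for which the limit, as `r → 0+`, of
the lower limit of the integrals of `V k * exp (4 * u k)` over the ball of radius `r` about `x`
exists and is at least `Λ₁ / 2 = 16 π² / 2`. -/
def concentrationSet (V u : ℕ → R4 → ℝ) : Set R4 :=
  {x | x ∈ Omega ∧ ∃ L : ℝ, Tendsto (fun r : ℝ =>
    liminf (fun k => ∫ y in Metric.ball x r, V k y * Real.exp (4 * u k y)) atTop) (𝓝[>] 0) (𝓝 L) ∧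
    16 * π ^ 2 / 2 ≤ L}

/-- The value at `v` of the derivative of order `m` of `f` at `x`. -/
noncomputable def der (m : ℕ) (f : R4 → ℝ) (x : R4) (v : Fin m → R4) : ℝ :=
  iteratedFDeriv ℝ m f x v

/-- The vectors have norm at most one. -/
def UnitBound (m : ℕ) (v : Fin m → R4) : Prop := ∀ i, ‖v i‖ ≤ 1

/-- On `K`, `f` and `g` differ by at most `η` in all derivatives of order at most three (in operator
norm), and the `α`-Hölder quotient of the third derivative of the difference is at most `η`. -/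
def HolderClose (K : Set R4) (α η : ℝ) (f g : R4 → ℝ) : Prop :=
  (∀ m : ℕ, m ≤ 3 → ∀ x ∈ K, ∀ v : Fin m → R4, UnitBound m v → |der m f x v - der m g x v| ≤ η) ∧
  ∀ x ∈ K, ∀ y ∈ K, ∀ v : Fin 3 → R4, UnitBound 3 v →
    |(der 3 f x v - der 3 g x v) - (der 3 f y v - der 3 g y v)| ≤ η * ‖x - y‖ ^ α

theorem apply_le {m : ℕ} (T : R4 [×m]→L[ℝ] ℝ) {c : ℝ} (h : ‖T‖ ≤ c) (v : Fin m → R4)
    (hv : UnitBound m v) : |T v| ≤ c := by
  have h1 : ‖T v‖ ≤ ‖T‖ * ∏ i, ‖v i‖ := T.le_opNorm v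
  have h2 : ∏ i, ‖v i‖ ≤ 1 := Finset.prod_le_one (fun i _ => norm_nonneg _) fun i _ => hv i
  rw [← Real.norm_eq_abs]
  calc ‖T v‖ ≤ ‖T‖ * ∏ i, ‖v i‖ := h1
    _ ≤ ‖T‖ * 1 := by gcongr
    _ ≤ c := by rw [mul_one]; exact h

/-- Convergence in `C^{3,α}` on every compact subset of `U`, for every `α ∈ [0,1)`. -/
def HolderLocConv (U : Set R4) (f : ℕ → R4 → ℝ) (g : R4 → ℝ) : Prop :=
  ∀ K : Set R4, IsCompact K → K ⊆ U → ∀ α : ℝ, 0 ≤ α → α < 1 → ∀ η : ℝ, 0 < η → ∀ᶠ k in atTop,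
    HolderClose K α η (f k) g

/-- Bounded continuous coefficients which converge locally uniformly in the domain to a positive
continuous limit. -/
def Coefficients (V : ℕ → R4 → ℝ) (V₀ : R4 → ℝ) : Prop :=
  (∀ k, ContinuousOn (V k) Omega ∧ ∃ M : ℝ, ∀ x ∈ Omega, |V k x| ≤ M) ∧
  ContinuousOn V₀ Omega ∧ (∀ x ∈ Omega, 0 < V₀ x) ∧ TendstoLocallyUniformlyOn V V₀ atTop Omega

/-- Smooth solutions of `Δ² u = V exp (4 u)` in the domain. -/
def Solutions (V u : ℕ → R4 → ℝ) : Prop :=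
  (∀ k, ∀ n : ℕ, ContDiffOn ℝ n (u k) Omega) ∧
  ∀ k, ∀ x ∈ Omega, Δ (Δ (u k)) x = V k x * Real.exp (4 * u k x)

/-- The integrals of `exp (4 u)` over the domain are bounded by one constant. -/
def BoundedVolume (u : ℕ → R4 → ℝ) : Prop :=
  ∃ C : ℝ, ∀ k, IntegrableOn (fun x => Real.exp (4 * u k x)) Omega ∧
    ∫ x in Omega, Real.exp (4 * u k x) ≤ C

/-- The set `{-1} × A`. -/
def pts (A : Set (EuclideanSpace ℝ (Fin 3))) : Set R4 := {x | x 0 = -1 ∧ lastThree x ∈ A}

/-- The profile is nonpositive and biharmonic in the domain, with zero set `{1} × ℝ³`. -/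
def ProfileFacts : Prop :=
  ∀ x ∈ Omega, profile x ≤ 0 ∧ (profile x = 0 ↔ x 0 = 1) ∧ Δ (Δ profile) x = 0

open Pool.Agent.Q82.QC in
theorem result (A : Set (EuclideanSpace ℝ (Fin 3))) (hA : A.Finite) :
    ∃ (V u : ℕ → R4 → ℝ) (V₀ : R4 → ℝ) (β : ℕ → ℝ),
      Coefficients V V₀ ∧ Solutions V u ∧ BoundedVolume u ∧ concentrationSet V u = pts A ∧
      ProfileFacts ∧ Tendsto β atTop atTop ∧
      HolderLocConv (Omega \ (pts A ∪ {x : R4 | profile x = 0})) (fun k x => u k x / β k) profile := by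
  have hWL := wl sm (lap sm) phi1
  have hKH := kh Pool.Agent.Q217.QC.kd sm
  have hPOT0 := pot0 k0 riesz
  have hPOTL := potl cd (lap sm) sm
  have hMOL := mol1 mass tail
  have hMOLI := moli mass
  have hWB := wb wp
  have hRAT := rat wp
  have hAPP := app hRAT
  have hCTL := ctl hWB th hWL
  have hmain : S_MAIN := main1 hWL hPOTL potb dec (gro wp) hCTL (vol hWL hWB th hRAT mass)
    (eps hWL hMOL) hMOLI hPOT0
    (conv hWL hPOTL (cvw sm Pool.Agent.Q217.QC.kd hKH phi1) hPOT0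
      (pot3 sm cd Pool.Agent.Q217.QC.kd riesz) (poth sm cd hKH riesz))
    (conc1 mass tail hMOLI) (vconv hWL hMOLI hAPP hPOT0)
  obtain ⟨V, u, b, c1, c2, c3, c4, c5, c6, c7, c8⟩ := fin1 hmain A hA
  refine ⟨V, u, fun _ => 6, b, ⟨c1, continuousOn_const, fun _ _ => by norm_num, c2⟩, ⟨c3, c4⟩, c5, ?_,
    fun x hx => ⟨?_, ?_, phi1.2 x⟩, c7, ?_⟩
  · have e : (16 : ℝ) * π ^ 2 / 2 = 8 * π ^ 2 := by ring
    have : concentrationSet V u = conc (fun k x => V k x * Real.exp (4 * u k x)) := by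
      unfold concentrationSet conc
      rw [e]
      rfl
    rw [this]
    exact c6
  · have h : profile x = -((x 0 - 1) ^ 2 * (x 0 + 2)) / 3 := by unfold profile; ring
    have hx1 : (0:ℝ) < x 0 + 2 := by linarith [hx.1]
    have h2 : 0 ≤ (x 0 - 1) ^ 2 * (x 0 + 2) := mul_nonneg (sq_nonneg _) hx1.le
    rw [h]
    linarith
  · have h : profile x = -((x 0 - 1) ^ 2 * (x 0 + 2)) / 3 := by unfold profile; ring
    have hx1 : (0:ℝ) < x 0 + 2 := by linarith [hx.1]
    constructor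
    · intro h0
      rw [h] at h0
      have h2 : (x 0 - 1) ^ 2 * (x 0 + 2) = 0 := by linarith
      have h3 : (x 0 - 1) ^ 2 = 0 := (mul_eq_zero.1 h2).resolve_right hx1.ne'
      have h4 : x 0 - 1 = 0 := by simpa using h3
      linarith
    · intro h0
      rw [h, h0]
      norm_num
  · intro K hK hKU α hα0 hα1 η hη
    filter_upwards [c8 K hK hKU α hα0 hα1 η hη] with k hk
    exact ⟨fun m hm x hx v hv => apply_le _ (hk.1 m hm x hx) v hv,
      fun x hx y hy v hv => apply_le _ (hk.2 x hx y hy) v hv⟩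

end Pool.Agent.Results.MP_e2b804_an.MixedBlowUp
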